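import Pool.Agent.MWGX.StmtsA

/-!
# Row XCH of the table mwgx (an exchange in `β` gives the identity with gap `c`)
-/

set_option autoImplicit false

namespace Pool.Agent.MWGX.H1

open Pool.Agent.Helper14_MV Pool.Agent.Helper2_MV
open Pool.Agent.MWK (pre)
open Pool.Agent.MWF (gaml)
open Pool.Agent.MWGN (nn)
open Pool.Agent.MWGQ (pw Gn E0 A0 P0)
open Pool.Agent.MWGR (X It Kaba F1 Dm Ec Es Ea Al0 Rh FE)

theorem xch_rep1 {g : ℕ → List ℕ} {c d : ℕ} (h : g c = [d]) (k : ℕ) :
    (List.replicate k c).flatMap g = List.replicate k d := by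
  induction k with
  | zero => rfl
  | succ k ih => rw [List.replicate_succ, List.flatMap_cons, ih, h]; rfl

/-- `T` with one letter kept -/
theorem xch_T {g : ℕ → List ℕ} {a : ℕ} (ha : g a = [1]) : ∀ {T : List ℕ},
    (∀ c ∈ T, c ≠ a → g c = []) → T.flatMap g = List.replicate (T.count a) 1 := by
  intro T
  induction T with
  | nil => intro _; rfl
  | cons c T ih =>
    intro h
    rw [List.flatMap_cons, ih (fun d hd => h d (List.mem_cons_of_mem _ hd)), List.count_cons]
    by_cases hc : c = a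
    · rw [hc, ha, if_pos (by simp), Nat.add_comm, List.replicate_add]
      rfl
    · rw [h c List.mem_cons_self hc, if_neg (by simpa using hc)]
      rfl

theorem xch_id {g : ℕ → List ℕ} {T : List ℕ} (h : ∀ c ∈ T, g c = [c]) : T.flatMap g = T := by
  induction T with
  | nil => rfl
  | cons c T ih =>
    rw [List.flatMap_cons, ih (fun d hd => h d (List.mem_cons_of_mem _ hd)),
      h c List.mem_cons_self]
    rfl

/-- the word `X s u X t v X r 3 T` -/
def xw (u v s t r : ℕ) (T : List ℕ) : List ℕ := X s ++ u :: (X t ++ v :: (X r ++ 3 :: T))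

theorem xch_flat {g : ℕ → List ℕ} (u v s t r : ℕ) (T : List ℕ) :
    (xw u v s t r T).flatMap g = (X s).flatMap g ++ (g u ++ ((X t).flatMap g ++ (g v ++
      ((X r).flatMap g ++ (g 3 ++ T.flatMap g))))) := by
  unfold xw
  simp only [List.flatMap_append, List.flatMap_cons]

theorem xch_add (a b : ℕ) (L : List ℕ) : List.replicate (a + b) 0 ++ L =
    List.replicate a 0 ++ (List.replicate b 0 ++ L) := by
  rw [List.replicate_add, List.append_assoc]

/-- `It` in the middle -/
theorem xch_mid {n : ℕ} {β : FIC} (hI : It n (RR β)) {u v s t r : ℕ} {T : List ℕ} (hu : u ∈ T)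
    (hv : v ∈ T) (hs : 1 ≤ s) (hr : 1 ≤ r) :
    RR β (xw u v s t r T) (xw u v s (n + t) r T) := by
  obtain ⟨s0, rfl⟩ : ∃ s0, s = s0 + 1 := ⟨s - 1, by omega⟩
  obtain ⟨r0, rfl⟩ : ∃ r0, r = r0 + 1 := ⟨r - 1, by omega⟩
  have h := hI (X s0) [u] (X t ++ [v]) (X r0 ++ 3 :: T) 0 ?_
  · have e1 : X s0 ++ 0 :: ([u] ++ ((X t ++ [v]) ++ 0 :: (X r0 ++ 3 :: T))) =
        xw u v (s0 + 1) t (r0 + 1) T := by
      unfold xw X
      rw [List.replicate_succ' (n := s0), List.replicate_succ (n := r0)]
      simp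
    have e2 : X s0 ++ 0 :: ([u] ++ (List.replicate n 0 ++ ((X t ++ [v]) ++
        0 :: (X r0 ++ 3 :: T)))) = xw u v (s0 + 1) (n + t) (r0 + 1) T := by
      unfold xw X
      rw [List.replicate_succ' (n := s0), List.replicate_succ (n := r0), xch_add]
      simp
    rw [e1, e2] at h
    exact h
  · intro c hc
    have cu : 0 < T.count u := List.count_pos_iff.2 hu
    have cv : 0 < T.count v := List.count_pos_iff.2 hv
    simp only [List.mem_append, List.mem_singleton] at hc
    rcases hc with hc | hc | hc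
    · subst hc
      simp only [List.count_append, List.count_cons, List.count_nil, beq_self_eq_true, if_true]
      omega
    · have : c = 0 := List.eq_of_mem_replicate hc
      subst this
      simp only [List.count_append, List.count_cons, List.count_nil, beq_self_eq_true, if_true]
      omega
    · subst hc
      simp only [List.count_append, List.count_cons, List.count_nil, beq_self_eq_true, if_true]
      omega

theorem xch (_h1 : FlxStmt) (h2 : MWGQ.CntStmt) (h3 : LbvStmt) (h4 : DmlStmt) : XchStmt := by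
  intro n β δ hG hI hδ i j k i' j' k' T T' m1 m2 m1' m2' m0 m3 m0' m3' h c hc
  have h' : RR β (xw 1 2 i j k T) (xw 2 1 i' j' k' T') := h
  obtain ⟨N, rfl⟩ : ∃ N, n = N + 1 := ⟨n - 1, by have := hG.pos; omega⟩
  have p1 : 1 ≤ T.count 1 := List.count_pos_iff.2 m1
  have p2 : 1 ≤ T.count 2 := List.count_pos_iff.2 m2
  have p1' : 1 ≤ T'.count 1 := List.count_pos_iff.2 m1'
  have p2' : 1 ≤ T'.count 2 := List.count_pos_iff.2 m2'
  -- labels
  have l1 : i ≡ i' + j' [MOD δ] := by
    obtain ⟨g, hg⟩ : ∃ g : ℕ → List ℕ, g = fun c => if c = 0 then [0] else if c = 1 then [1]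
      else if c = 3 then [3] else [] := ⟨_, rfl⟩
    have g0 : g 0 = [0] := by rw [hg]; simp
    have g1 : g 1 = [1] := by rw [hg]; simp
    have g2 : g 2 = [] := by rw [hg]; simp
    have g3 : g 3 = [3] := by rw [hg]; simp
    have gT : ∀ U : List ℕ, 0 ∉ U → 3 ∉ U → U.flatMap g = List.replicate (U.count 1) 1 := by
      intro U u0 u3
      apply xch_T g1
      intro c hc hc1
      rw [hg]
      have q0 : c ≠ 0 := fun e => u0 (e ▸ hc)
      have q3 : c ≠ 3 := fun e => u3 (e ▸ hc)
      simp [q0, q3, hc1]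
    have h2 := RR.sub g h'
    rw [xch_flat, xch_flat, gT T m0 m3, gT T' m0' m3', g1, g2, g3] at h2
    unfold X at h2
    rw [xch_rep1 g0, xch_rep1 g0, xch_rep1 g0, xch_rep1 g0, xch_rep1 g0, xch_rep1 g0] at h2
    refine h3 (N + 1) β δ hG hI hδ i (j + k) (T.count 1) (i' + j') k' (T'.count 1) p1 p1' ?_
    unfold X
    rw [xch_add, xch_add]
    simpa only [List.nil_append, List.singleton_append, List.cons_append] using h2
  have l2 : i + j ≡ i' [MOD δ] := by
    obtain ⟨g, hg⟩ : ∃ g : ℕ → List ℕ, g = fun c => if c = 0 then [0] else if c = 2 then [1]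
      else if c = 3 then [3] else [] := ⟨_, rfl⟩
    have g0 : g 0 = [0] := by rw [hg]; simp
    have g1 : g 1 = [] := by rw [hg]; simp
    have g2 : g 2 = [1] := by rw [hg]; simp
    have g3 : g 3 = [3] := by rw [hg]; simp
    have gT : ∀ U : List ℕ, 0 ∉ U → 3 ∉ U → U.flatMap g = List.replicate (U.count 2) 1 := by
      intro U u0 u3
      apply xch_T g2
      intro c hc hc1
      rw [hg]
      have q0 : c ≠ 0 := fun e => u0 (e ▸ hc)
      have q3 : c ≠ 3 := fun e => u3 (e ▸ hc)
      simp [q0, q3, hc1]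
    have h2 := RR.sub g h'
    rw [xch_flat, xch_flat, gT T m0 m3, gT T' m0' m3', g1, g2, g3] at h2
    unfold X at h2
    rw [xch_rep1 g0, xch_rep1 g0, xch_rep1 g0, xch_rep1 g0, xch_rep1 g0, xch_rep1 g0] at h2
    refine h3 (N + 1) β δ hG hI hδ (i + j) k (T.count 2) i' (j' + k') (T'.count 2) p2 p2' ?_
    unfold X
    rw [xch_add, xch_add]
    simpa only [List.nil_append, List.singleton_append, List.cons_append] using h2
  -- total
  have ht : i + j + k ≡ i' + j' + k' [MOD N + 1] := by
    have h5 := (h2 (N + 1) β hG _ _ h' 0).2.2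
    have z : T.count 0 = 0 := List.count_eq_zero.2 m0
    have z' : T'.count 0 = 0 := List.count_eq_zero.2 m0'
    have e1 : (xw 1 2 i j k T).count 0 = i + j + k := by
      unfold xw X
      simp only [List.count_append, List.count_cons, List.count_replicate, z]
      simp
      omega
    have e2 : (xw 2 1 i' j' k' T').count 0 = i' + j' + k' := by
      unfold xw X
      simp only [List.count_append, List.count_cons, List.count_replicate, z']
      simp
      omega
    rwa [e1, e2] at h5
  obtain ⟨P, hP⟩ : ∃ P, P = (N + 1) + N * i := ⟨_, rfl⟩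
  obtain ⟨Q, hQ⟩ : ∃ Q, Q = (N + 1) + c + N * j + N * k := ⟨_, rfl⟩
  have h5 : RR β (xw 1 2 (P + i) j (k + Q) T) (xw 2 1 (P + i') j' (k' + Q) T') := by
    obtain ⟨g, hg⟩ : ∃ g : ℕ → List ℕ, g = fun c => if c = 3 then X Q ++ [3] else [c] := ⟨_, rfl⟩
    have g0 : g 0 = [0] := by rw [hg]; simp
    have g1 : g 1 = [1] := by rw [hg]; simp
    have g2 : g 2 = [2] := by rw [hg]; simp
    have g3 : g 3 = X Q ++ [3] := by rw [hg]; simp
    have gT : ∀ U : List ℕ, 3 ∉ U → U.flatMap g = U := by
      intro U u3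
      apply xch_id
      intro c hc
      rw [hg]
      have q3 : c ≠ 3 := fun e => u3 (e ▸ hc)
      simp [q3]
    have h2 := (RR.refl (β := β) (X P)).append (RR.sub g h')
    rw [xch_flat, xch_flat, gT T m3, gT T' m3', g1, g2, g3] at h2
    unfold X at h2
    rw [xch_rep1 g0, xch_rep1 g0, xch_rep1 g0, xch_rep1 g0, xch_rep1 g0, xch_rep1 g0] at h2
    unfold xw X
    rw [xch_add, xch_add, xch_add, xch_add]
    simpa only [List.nil_append, List.singleton_append, List.cons_append, List.append_assoc] using h2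
  have h6 : RR β (xw 1 2 (P + i) j (k + Q) T) (xw 1 2 (P + i) (N + 1 + j) (k + Q) T) :=
    xch_mid hI m1 m2 (by omega) (by omega)
  have h7 : RR β (xw 2 1 (P + i') j' (k' + Q) T') (xw 2 1 (P + i') (N + 1 + j') (k' + Q) T') :=
    xch_mid hI m2' m1' (by omega) (by omega)
  -- arithmetic
  have zδ : (N : ZMod δ) + 1 = 0 := by
    have := (ZMod.natCast_eq_zero_iff (N + 1) δ).2 hδ.dv
    push_cast at this
    exact this
  have zn : (N : ZMod (N + 1)) + 1 = 0 := by
    have := (ZMod.natCast_eq_zero_iff (N + 1) (N + 1)).2 (dvd_refl _)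
    push_cast at this
    exact this
  have a1 := (ZMod.natCast_eq_natCast_iff _ _ _).2 l1
  have a2 := (ZMod.natCast_eq_natCast_iff _ _ _).2 l2
  have a3 := (ZMod.natCast_eq_natCast_iff _ _ _).2 hc
  have a4 := (ZMod.natCast_eq_natCast_iff _ _ _).2 ht
  push_cast at a1 a2 a3 a4
  have h8 : RR β (xw 1 2 (P + i) (N + 1 + j) (k + Q) T)
      (xw 1 2 (N + 1) (N + 1 + c) (N + 1) T) := by
    refine h4 (N + 1) β δ (by omega) hI hδ 1 2 (P + i) (N + 1 + j) (k + Q) (N + 1) (N + 1 + c)
      (N + 1) (3 :: T) (by omega) (by omega) (by omega) (by omega) (by omega) (by omega)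
      (List.mem_cons_of_mem _ m1) (List.mem_cons_of_mem _ m2) ?_ ?_ ?_
    · apply (ZMod.natCast_eq_natCast_iff _ _ _).1
      rw [hP]
      push_cast
      linear_combination (i : ZMod δ) * zδ
    · apply (ZMod.natCast_eq_natCast_iff _ _ _).1
      rw [hP]
      push_cast
      linear_combination (i : ZMod δ) * zδ + a3
    · apply (ZMod.natCast_eq_natCast_iff _ _ _).1
      rw [hP, hQ]
      push_cast
      linear_combination ((i : ZMod (N + 1)) + j + k) * zn
  have h9 : RR β (xw 2 1 (P + i') (N + 1 + j') (k' + Q) T')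
      (xw 2 1 (N + 1 + c) (N + 1 + N * c) (N + 1 + c) T') := by
    refine h4 (N + 1) β δ (by omega) hI hδ 2 1 (P + i') (N + 1 + j') (k' + Q) (N + 1 + c)
      (N + 1 + N * c) (N + 1 + c) (3 :: T') (by omega) (by omega) (by omega) (by omega)
      (by omega) (by omega) (List.mem_cons_of_mem _ m2') (List.mem_cons_of_mem _ m1') ?_ ?_ ?_
    · apply (ZMod.natCast_eq_natCast_iff _ _ _).1
      rw [hP]
      push_cast
      linear_combination (i : ZMod δ) * zδ + a3 - a2
    · apply (ZMod.natCast_eq_natCast_iff _ _ _).1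
      rw [hP]
      push_cast
      linear_combination ((i : ZMod δ) - c) * zδ - a1
    · apply (ZMod.natCast_eq_natCast_iff _ _ _).1
      rw [hP, hQ]
      push_cast
      linear_combination ((i : ZMod (N + 1)) + j + k - c) * zn - a4
  exact β.trans h8.symm (β.trans h6.symm (β.trans h5 (β.trans h7 h9)))

end Pool.Agent.MWGX.H1
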